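import Pool.Agent.Helper79.CF.Base

/-!
Factor complexity of infinite words: definitions for the proof that the set of the complexity
functions of the infinite words over an alphabet with at least four letters is not Borel.
-/

namespace Pool.Agent.Helper79.CF

/-! ### Events: prescribed lengths of gap words and of their common prefixes and suffixes -/

/-- `m j` is the length of the `j`-th gap word, `p j` and `q j` are the lengths of its longest
common prefix and suffix with the next one. -/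
structure Data where
  p : ℕ → ℕ
  q : ℕ → ℕ
  m : ℕ → ℕ

/-- `q (j - 1)`, and `0` for `j = 0`. -/
def Data.Q (D : Data) : ℕ → ℕ
  | 0 => 0
  | j + 1 => D.q j

structure Data.Good (D : Data) : Prop where
  p0 : 1 ≤ D.p 0
  q0 : D.q 0 = D.p 0
  m0 : D.m 0 = D.p 0 + 1
  pm : ∀ j, D.p j < D.m j
  qm : ∀ j, D.q j < D.m j
  mpq : ∀ j, D.m j ≤ D.p j + D.q j
  growp : ∀ j, D.p j + D.Q j + 2 ≤ D.p (j + 1)
  growq : ∀ j, D.p j + D.Q j + 2 ≤ D.q (j + 1)
  shortp : ∀ j, D.Q j + 1 ≤ D.p j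
  shortq : ∀ j, D.p j + D.Q j + 1 ≤ 2 * D.q j
  reach : ∀ j, D.q j ≤ D.p j + D.Q j
  mp : ∀ j, D.m (j + 1) ≤ D.p (j + 1) + D.Q (j + 1)
  mq : ∀ j, D.m (j + 1) ≤ D.q (j + 1) + D.Q (j + 1)

open scoped Classical in
/-- Slope at `n` of the number of factors containing the extra letter. -/
noncomputable def slope (D : Data) (n : ℕ) : ℕ :=
  1 + (if ∃ j, D.p j < n ∧ n ≤ D.p j + D.Q j + 1 then 1 else 0)
    + (if ∃ j, D.q j < n ∧ n ≤ D.m j then 1 else 0)

/-- Number of factors of length `n` containing the extra letter. -/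
noncomputable def gfun (D : Data) (n : ℕ) : ℕ := ∑ i ∈ Finset.range n, slope D i

/-- The complexity function with `k` ordinary letters. -/
noncomputable def ffun (k : ℕ) (D : Data) (n : ℕ) : ℕ := k ^ n + gfun D n

/-- The right context `y` and the left context `x` (read from right to left) are compatible
with the data. -/
structure IsSol {K : Type*} (D : Data) (y x : ℕ → K) : Prop where
  sym : ∀ j i i', i < D.p j → i' < D.q j → i + i' + 1 = D.m j → y i = x i'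
  ney : ∀ j i', D.p j + i' + 1 = D.m j → y (D.p j) ≠ x i'
  nex : ∀ j i, D.q j + i + 1 = D.m j → x (D.q j) ≠ y i

/-- The letters of the `j`-th gap word (positions `i < D.m j`). -/
def gap {K : Type*} (D : Data) (y x : ℕ → K) (j i : ℕ) : K :=
  if i < D.p j then y i else x (D.m j - 1 - i)

/-- Every finite word is a factor of some gap word. -/
def Rich {K : Type*} (D : Data) (y x : ℕ → K) : Prop :=
  ∀ n (v : Fin n → K), ∃ j i, i + n ≤ D.m j ∧ ∀ t : Fin n, gap D y x j (i + t) = v t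

/-! ### Real steps -/

/-- The `k`-th real step: `ε k ∈ {0, 1}` letters are inserted, the left cut is after the letter
`a k`, the right cut before the `b k`-th letter from the right (both counted from `0`). -/
structure Steps where
  ε : ℕ → ℕ
  a : ℕ → ℕ
  b : ℕ → ℕ
  p : ℕ → ℕ
  q : ℕ → ℕ
  M : ℕ → ℕ

/-- Length of the word produced by the `k`-th real step. -/
def Steps.L (S : Steps) (k : ℕ) : ℕ := S.p k + S.q k + S.ε k

structure Steps.Ok (S : Steps) : Prop where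
  eps : ∀ k, S.ε k = 0 ∨ S.ε k = 1
  e0 : S.ε 0 = 1
  a0 : S.a 0 = 0
  b0 : S.b 0 = 0
  M0 : S.M 0 = 3
  hp : ∀ k, S.p k + S.b k + 1 = S.M k
  hq : ∀ k, S.q k + S.a k + 1 = S.M k
  hM : ∀ k, S.M (k + 1) + 3 = 4 * S.L k
  ha : ∀ k, S.a (k + 1) + 3 ≤ S.L k
  hb : ∀ k, S.b (k + 1) + 3 ≤ S.L k

/-- Each real step is followed by two padding steps. -/
def Steps.data (S : Steps) : Data where
  p j := if j % 3 = 0 then S.p (j / 3)
    else if j % 3 = 1 then S.L (j / 3) - 1 else 2 * S.L (j / 3) - 2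
  q j := if j % 3 = 0 then S.q (j / 3)
    else if j % 3 = 1 then S.L (j / 3) - 1 else 2 * S.L (j / 3) - 2
  m j := if j % 3 = 0 then S.M (j / 3)
    else if j % 3 = 1 then S.L (j / 3) else 2 * S.L (j / 3) - 1

/-- Equalities between the letters of the contexts. -/
structure Sym {K : Type*} (S : Steps) (y x : ℕ → K) : Prop where
  s0 : ∀ k i i', i < S.p k → i' < S.q k → i + i' + 1 = S.M k → y i = x i'
  s1 : ∀ k i i', 0 < i → 0 < i' → i + i' + 1 = S.L k → y i = x i'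
  s2 : ∀ k i i', 0 < i → 0 < i' → i + i' + 2 = 2 * S.L k → y i = x i'

/-- Inequalities between the letters of the contexts. -/
structure Ineq {K : Type*} (S : Steps) (y x : ℕ → K) : Prop where
  y0 : ∀ k, y (S.p k) ≠ x (S.b k)
  x0 : ∀ k, x (S.q k) ≠ y (S.a k)
  y1 : ∀ k r, r + 1 = S.L k → y r ≠ x 0
  x1 : ∀ k r, r + 1 = S.L k → x r ≠ y 0
  y2 : ∀ k r, r + 2 = 2 * S.L k → y r ≠ x 0
  x2 : ∀ k r, r + 2 = 2 * S.L k → x r ≠ y 0

/-! ### The program of a graph -/

/-- The `i`-th letter of the word `W n` (and the letter `0` behind its end). -/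
def tl (W : ℕ → List (Fin 3)) (n i : ℕ) : Fin 3 := (W n).getD i 0

/-- The real steps of the graph `G`; `st n` is the number of the first step of the stage `n`. -/
structure Spec (S : Steps) (st : ℕ → ℕ) (W : ℕ → List (Fin 3)) (G : ℕ → ℕ → Prop) : Prop where
  st0 : st 0 = 8
  st1 : ∀ n, st (n + 1) = st n + 3 + n + (W n).length
  e1 : S.ε 1 = 1 ∧ S.a 1 = S.p 0 ∧ S.b 1 = 0
  e2 : S.ε 2 = 1 ∧ S.a 2 = 0 ∧ S.b 2 = S.q 0
  e3 : S.ε 3 = 1 ∧ S.a 3 + 1 = S.p 1 ∧ S.b 3 = 0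
  e4 : S.ε 4 = 0 ∧ S.a 4 = S.p 3 ∧ S.b 4 = S.q 2
  e5 : S.ε 5 = 0 ∧ S.a 5 = 0 ∧ S.b 5 = S.q 1
  e6 : S.ε 6 = 0 ∧ S.a 6 = S.p 2 ∧ S.b 6 = 0
  e7 : S.ε 7 = 1 ∧ S.a 7 = S.p 2 ∧ S.b 7 + 1 = S.q 1
  hr : ∀ n, S.ε (st n) = 1 ∧ S.a (st n) = S.p 0 ∧ S.b (st n) = S.q 0
  hs : ∀ n, S.ε (st n + 1) = 1 ∧ S.a (st n + 1) = S.p (st n) ∧ S.b (st n + 1) = S.q 1
  hg : ∀ n, S.ε (st n + 2) = 1 ∧ S.a (st n + 2) = S.p (st n + 1) ∧ S.b (st n + 2) = S.q 7
  hc : ∀ n i, i < n → G i n →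
    S.ε (st n + 3 + i) = 1 ∧ S.a (st n + 3 + i) = 0 ∧ S.b (st n + 3 + i) = 0
  hd : ∀ n i, i < n → ¬ G i n →
    S.ε (st n + 3 + i) = 0 ∧ S.a (st n + 3 + i) + 1 = S.p (st n + 2) ∧
      S.b (st n + 3 + i) = S.q (st i)
  be : ∀ n i, i < (W n).length → S.ε (st n + 3 + n + i) = 1
  ba0 : ∀ n, 0 < (W n).length →
    S.a (st n + 3 + n) = if tl W n 0 = 2 then S.p 1 else S.p 0
  ba : ∀ n i, i + 1 < (W n).length → S.a (st n + 3 + n + i + 1) + 1 = S.p (st n + 3 + n + i)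
  bb1 : ∀ n i, i < (W n).length → tl W n i = 0 → tl W n (i + 1) = 2 →
    S.b (st n + 3 + n + i) + 1 = S.q 1
  bb2 : ∀ n i, i < (W n).length → tl W n i = 0 → tl W n (i + 1) ≠ 2 →
    S.b (st n + 3 + n + i) = S.q (st n)
  bb3 : ∀ n i, i < (W n).length → tl W n i ≠ 0 → tl W n (i + 1) = 2 →
    S.b (st n + 3 + n + i) = S.q 7
  bb4 : ∀ n i, i < (W n).length → tl W n i ≠ 0 → tl W n (i + 1) ≠ 2 →
    S.b (st n + 3 + n + i) = S.q 1

/-! ### Words with an extra letter `none` -/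

section ND
variable {K : Type*}

/-- The factors containing `none`. -/
def NF (u : ℕ → Option K) (n : ℕ) : Set (Fin n → Option K) :=
  {v | v ∈ factors u n ∧ ∃ i, v i = none}

/-- Number of the factors of length `n` containing `none`. -/
noncomputable def gw (u : ℕ → Option K) (n : ℕ) : ℕ := (NF u n).ncard

/-- At `i` starts a word of length `n` without `none`, followed by `none`. -/
def Cls (u : ℕ → Option K) (n i : ℕ) : Prop := (∀ r < n, u (i + r) ≠ none) ∧ u (i + n) = none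

/-- The words of length `n` at `i` and `i'` are equal. -/
def EqW (u : ℕ → Option K) (n i i' : ℕ) : Prop := ∀ r < n, u (i + r) = u (i' + r)

def F1 (u : ℕ → Option K) (n : ℕ) : Prop := ∀ i i', Cls u n i → Cls u n i' → EqW u n i i'

def F2 (u : ℕ → Option K) (n : ℕ) : Prop :=
  ∀ i i', EqW u n i i' → (∃ r < n, u (i + r) = none) → u (i + n) = u (i' + n)

def Coll (u : ℕ → Option K) (n i i' : ℕ) : Prop :=
  EqW u n i i' ∧ (∃ r < n, u (i + r) = none) ∧ u (i + n) ≠ u (i' + n)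

/-- All letters `none` from `T` on are followed by the same `n` letters, all different from
`none`. -/
structure St (u : ℕ → Option K) (n T : ℕ) : Prop where
  here : u T = none
  next : ∀ t, T ≤ t → u t = none → ∀ i < n, u (t + 1 + i) ≠ none ∧ u (t + 1 + i) = u (T + 1 + i)

/-- No `none` up to `T` is preceded by `n` letters different from `none`. -/
def Pv (u : ℕ → Option K) (n T : ℕ) : Prop :=
  ∀ i, i + n ≤ T → u (i + n) = none → ∃ r < n, u (i + r) = none

/-- `none` occurs infinitely often. -/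
def Inf (u : ℕ → Option K) : Prop := ∀ N, ∃ t ≥ N, u t = none

/-- There are arbitrarily long stretches without `none`. -/
def Run (u : ℕ → Option K) : Prop := ∀ N M, ∃ t ≥ M, ∀ i < N, u (t + i) ≠ none

/-- The situation at a macro step: `T < t < s` are positions of `none`, `t` is the next one
after `T`. -/
structure Mac (u : ℕ → Option K) (n0 n1 T t s Q : ℕ) : Prop where
  h01 : n0 < n1
  h12 : n1 ≤ 2 * n0 + 1
  stT : St u n0 T
  stt : St u n1 t
  pv : Pv u n0 T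
  Tt : T < t
  bt : ∀ r, T < r → r < t → u r ≠ none
  ts : t < s
  hs : u s = none
  f1 : F1 u n0
  f2 : F2 u n0
  g1 : F1 u n1
  QT : Q ≤ T
  left : ∀ i i' c, c < Q → i + c + 1 = T → i' + c + 1 = s → u i = u i'
  leftne : ∀ i i', i + Q + 1 = T → i' + Q + 1 = s → u i ≠ u i'

/-- `u` is the word `none, gap 0, none, gap 1, none, ...`; the letters `none` are at the
positions `T j`. -/
structure Wd (D : Data) (y x : ℕ → K) (u : ℕ → Option K) (T : ℕ → ℕ) : Prop where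
  T0 : T 0 = 0
  Ts : ∀ j, T (j + 1) = T j + 1 + D.m j
  un : ∀ j, u (T j) = none
  ug : ∀ j i, i < D.m j → u (T j + 1 + i) = some (gap D y x j i)

/-- The letters fixed by the first eight real steps. -/
structure Ini (S : Steps) (y x : ℕ → K) : Prop where
  n0 : y 0 ≠ x 0
  n1 : y 1 ≠ y 0
  n2 : y 1 ≠ x 0
  x1 : x 1 = y 1
  y2 : y 2 = y 1
  x2 : x 2 = y 1
  y3 : y 3 = y 1
  x3 : x 3 = y 1
  p1 : y (S.p 1) = y 0
  q1 : x (S.q 1) = y 0
  p1s : y (S.p 1 + 1) = y 1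
  q1s : x (S.q 1 + 1) = y 1
  q1p : ∀ i, i + 1 = S.q 1 → x i = y 1
  q7 : x (S.q 7) = y 0
  q7s : x (S.q 7 + 1) = y 0
  q7t : x (S.q 7 + 2) = y 1

/-- The step `k` does not produce three consecutive letters `A` around the place of the
insertion. -/
def Safe (S : Steps) (y : ℕ → K) (A : K) (k : ℕ) : Prop :=
  (S.ε k = 1 → y (S.p k) ≠ A ∨ (y (S.p k + 1) ≠ A ∧
    ((∀ i, i + 1 = S.p k → y i ≠ A) ∨ ∀ i, i + 2 = S.p k → y i ≠ A))) ∧
  (S.ε k = 0 → ∀ i, i + 1 = S.p k → y i ≠ A)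

end ND

/-- The letters inserted by the real steps, for the set `I` of the selected stages. -/
structure HL (st : ℕ → ℕ) (W : ℕ → List (Fin 3)) (I : Set ℕ) (h : ℕ → Fin 3) : Prop where
  h0 : h 0 = 2
  h1 : h 1 = 0
  h2 : h 2 = 1
  h3 : h 3 = 0
  h7 : h 7 = 0
  r1 : ∀ n ∈ I, h (st n) = 1
  r0 : ∀ n ∉ I, h (st n) = 0
  s1 : ∀ n ∈ I, h (st n + 1) = 2
  s0 : ∀ n ∉ I, h (st n + 1) = 1
  g1 : ∀ n ∈ I, h (st n + 2) = 1
  g0 : ∀ n ∉ I, h (st n + 2) = 2
  c : ∀ n i, i < n → h (st n + 3 + i) = 2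
  b1 : ∀ n ∈ I, ∀ i < (W n).length, h (st n + 3 + n + i) = tl W n i
  b0 : ∀ n ∉ I, ∀ i < (W n).length, h (st n + 3 + n + i) = 1

theorem fin3 : ∀ r a b c : Fin 3, a ≠ b → c ≠ a → c ≠ b → r ≠ c → r ≠ b → r = a := by decide

end Pool.Agent.Helper79.CF
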