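import Mathlib

/-! Factors and the factor complexity function of an infinite word. -/

namespace Pool.Agent.Helper79.CF

/-- The set of the factors of length `n` of the infinite word `u`: the words
`u i, u (i + 1), ..., u (i + n - 1)` for `i ≥ 0`. -/
def factors {A : Type*} (u : ℕ → A) (n : ℕ) : Set (Fin n → A) :=
  Set.range fun i : ℕ => fun j : Fin n => u (i + j)

/-- The factor complexity function of the infinite word `u`: the number of its factors of
length `n`. -/
noncomputable def complexity {A : Type*} (u : ℕ → A) (n : ℕ) : ℕ := (factors u n).ncard

end Pool.Agent.Helper79.CF
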