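import Pool.Agent.Helper79.CF.Main

/-! The set of the complexity functions of the infinite words over an alphabet with at least four
letters is a complete analytic set; in particular it is not Borel. -/

namespace Pool.Agent.Results.MP_7c7486_co.CompleteAnalytic

open MeasureTheory Pool.Agent.Helper79.CF

/-- Let `A` be a finite alphabet with at least four letters. The set of the factor complexity
functions of all infinite words over `A` is analytic, every analytic set of functions from `ℕ` to
`ℕ` is its inverse image under a continuous map, and it is not Borel. -/
theorem result (A : Type*) [Fintype A] (hA : 4 ≤ Fintype.card A) :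
    AnalyticSet (Set.range fun u : ℕ → A => complexity u) ∧
      (∀ S : Set (ℕ → ℕ), AnalyticSet S → ∃ Φ : (ℕ → ℕ) → ℕ → ℕ, Continuous Φ ∧
        Φ ⁻¹' (Set.range fun u : ℕ → A => complexity u) = S) ∧
      ¬ @MeasurableSet (ℕ → ℕ) (borel (ℕ → ℕ)) (Set.range fun u : ℕ → A => complexity u) :=
  final A hA

end Pool.Agent.Results.MP_7c7486_co.CompleteAnalytic
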