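import Pool.Agent.CFX.SLOPE
import Pool.Agent.CFX.SOLVE
import Pool.Agent.CFX.COUNTA
import Pool.Agent.CFX.COUNTB
import Pool.Agent.CFX.STEP
import Pool.Agent.CFX.LEVR
import Pool.Agent.CFX.LEVE
import Pool.Agent.CFX.INIT

/-!
An infinite word with the prescribed complexity function and all words over `Fin k` as factors
has the prescribed structure.
-/

namespace Pool.Agent.Helper79.CF



/-! ## DEC0 -/

theorem dec0_fm {α : Type*} (f g : ℕ → α) (N : ℕ) :
    ∃ p ≤ N, (∀ i < p, f i = g i) ∧ (p < N → f p ≠ g p) := by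
  classical
  by_cases h : ∃ p, p < N ∧ f p ≠ g p
  · refine ⟨Nat.find h, (Nat.find_spec h).1.le, fun i hi => ?_, fun _ => (Nat.find_spec h).2⟩
    by_contra hne
    exact Nat.find_min h hi ⟨hi.trans (Nat.find_spec h).1, hne⟩
  · push Not at h
    exact ⟨N, le_rfl, h, fun h' => absurd h' (lt_irrefl N)⟩

structure Stt {K : Type*} (D : Data) (u : ℕ → Option K) (j T : ℕ) : Prop where
  st : St u (min (D.p j) (D.q j)) T
  pv : Pv u (min (D.p j) (D.q j)) T
  QT : D.Q j ≤ T
  left : ∀ s, T < s → u s = none → ∀ i i' c, c < D.Q j → i + c + 1 = T → i' + c + 1 = s →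
    u i = u i'
  leftne : ∀ s, T < s → u s = none → ∀ i i', i + D.Q j + 1 = T → i' + D.Q j + 1 = s → u i ≠ u i'

structure Evt {K : Type*} (D : Data) (u : ℕ → Option K) (j T t : ℕ) : Prop where
  ht : t = T + 1 + D.m j
  un : u t = none
  bt : ∀ r, T < r → r < t → u r ≠ none
  pre : ∀ t', t ≤ t' → u t' = none → ∀ i < D.p j, u (T + 1 + i) = u (t' + 1 + i)
  prene : ∀ t', t ≤ t' → u t' = none → u (T + 1 + D.p j) ≠ u (t' + 1 + D.p j)
  suf : ∀ s, t < s → u s = none → ∀ i i' c, c < D.q j → i + c + 1 = t → i' + c + 1 = s →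
    u i = u i'
  sufne : ∀ s, t < s → u s = none → ∀ i i', i + D.q j + 1 = t → i' + D.q j + 1 = s → u i ≠ u i'

/-- After `T` all gaps have length at least `n`. -/
theorem dec0_cls {K : Type*} {u : ℕ → Option K} {n T s : ℕ} (h : St u n T) (hs : T < s)
    (hu : u s = none) : n + T + 1 ≤ s ∧ Cls u n (s - n) := by
  have h1 : n + T + 1 ≤ s := by
    by_contra hlt
    have h2 := (h.next T le_rfl h.here (s - (T + 1)) (by omega)).1
    rw [show T + 1 + (s - (T + 1)) = s by omega] at h2
    exact h2 hu
  refine ⟨h1, fun r hr hn => ?_, ?_⟩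
  · have h2 := (h.next (s - n + r) (by omega) hn (n - 1 - r) (by omega)).1
    rw [show s - n + r + 1 + (n - 1 - r) = s by omega] at h2
    exact h2 hu
  · rw [show s - n + n = s by omega]; exact hu

theorem dec0_up {k : ℕ} {D : Data} (hD : D.Good) {u : ℕ → Option (Fin k)} (hr : Run u)
    (hlev : ∀ n, slope D n = 1 → F1 u n ∧ F2 u n) {j t : ℕ}
    (h : St u (D.p j + D.Q j + 2) t) (N : ℕ) (h1 : D.p j + D.Q j + 2 ≤ N)
    (h2 : N ≤ D.p (j + 1)) (h3 : N ≤ D.q (j + 1)) : St u N t := by
  induction N, h1 using Nat.le_induction with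
  | base => exact h
  | succ N hN ih =>
    exact st_succ hr (ih (by omega) (by omega))
      (hlev _ (slope_one hD (j := j) (by omega) h2 h3)).2

theorem dec0_step {k : ℕ} {D : Data} (hD : D.Good) {u : ℕ → Option (Fin k)}
    (hi : Inf u) (hr : Run u) (hg : ∀ n, gw u (n + 1) = gw u n + slope D n)
    (hlev : ∀ n, slope D n = 1 → F1 u n ∧ F2 u n) {j T : ℕ} (h : Stt D u j T) :
    ∃ t, Evt D u j T t ∧ Stt D u (j + 1) t := by
  classical
  set n0 := min (D.p j) (D.q j) with hn0
  set n1 := D.p j + D.Q j + 2 with hn1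
  have e1 := hD.shortp j
  have e2 := hD.shortq j
  have e3 := hD.growp j
  have e4 := hD.growq j
  have e5 := hD.reach j
  have e6 := hD.qm j
  have e7 := hD.pm j
  have h01 : n0 < n1 := by omega
  have h12 : n1 ≤ 2 * n0 + 1 := by omega
  have s0 : slope D n0 = 1 := by
    rcases j with _ | j
    · exact slope_one_of_le hD (by omega)
    · have := hD.growp j
      have := hD.growq j
      exact slope_one hD (j := j) (by omega) (by omega) (by omega)
  have s1 : slope D n1 = 1 := slope_one hD (j := j) (by omega) (by omega) (by omega)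
  obtain ⟨f1, f2⟩ := hlev _ s0
  obtain ⟨g1, g2⟩ := hlev _ s1
  have hex : ∃ t, T < t ∧ u t = none := by
    obtain ⟨t, ht, hu⟩ := hi (T + 1)
    exact ⟨t, by omega, hu⟩
  obtain ⟨hTt, hut⟩ := Nat.find_spec hex
  have hbt : ∀ r, T < r → r < Nat.find hex → u r ≠ none := fun r h1 h2 h3 =>
    Nat.find_min hex h2 ⟨h1, h3⟩
  generalize Nat.find hex = t at hTt hut hbt
  have stt : St u n1 t := st_step hi hr h.st h01 h12 f1 g2 hTt hut
  obtain ⟨s, hs, hus⟩ := hi (t + 1)
  have hts : t < s := by omega
  have hmac : Mac u n0 n1 T t s (D.Q j) :=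
    { h01 := h01, h12 := h12, stT := h.st, stt := stt, pv := h.pv, Tt := hTt, bt := hbt,
      ts := hts, hs := hus, f1 := f1, f2 := f2, g1 := g1, QT := h.QT,
      left := h.left s (by omega) hus, leftne := h.leftne s (by omega) hus }
  obtain ⟨p', hp1, hp, hp'⟩ := dec0_fm (fun i => u (T + 1 + i)) (fun i => u (t + 1 + i)) n1
  obtain ⟨q', hq1, hq, hq'⟩ := dec0_fm (fun c => u (t - 1 - c)) (fun c => u (s - 1 - c)) n1
  have hq2 : ∀ i i' c, c < q' → i + c + 1 = t → i' + c + 1 = s → u i = u i' := by
    intro i i' c hc h1 h2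
    have := hq c hc
    rwa [show t - 1 - c = i by omega, show s - 1 - c = i' by omega] at this
  have hq3 : q' < n1 → ∀ i i', i + q' + 1 = t → i' + q' + 1 = s → u i ≠ u i' := by
    intro h1 i i' h2 h3
    have := hq' h1
    rwa [show t - 1 - q' = i by omega, show s - 1 - q' = i' by omega] at this
  have hsl : ∀ n, n0 ≤ n → n ≤ D.p j + D.Q j + 2 →
      slope D n = 1 + (if p' < n ∧ n ≤ p' + D.Q j + 1 then 1 else 0)
        + (if q' < n ∧ n ≤ t - T - 1 then 1 else 0) := by
    intro n h1 h2
    have hR := levR hmac hp1 hp hp' h1 h2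
    have hE := levE hmac hq1 hq2 hq3 h1 h2
    have hc : ∃ i, Cls u n i := by
      obtain ⟨i, _, hi'⟩ := exists_cls hi hr n 0
      exact ⟨i, hi'⟩
    have := cnt_gen u n _ _ hc hE.1 hE.2 hR.1 hR.2
    rw [hg] at this
    omega
  have hnp : n0 ≤ p' := by
    by_contra hlt
    push Not at hlt
    exact hp' (by omega) ((h.st.next t hTt.le hut p' hlt).2).symm
  obtain ⟨hT1, hT2⟩ := dec0_cls h.st hTt hut
  obtain ⟨hS1, hS2⟩ := dec0_cls h.st (hTt.trans hts) hus
  have hnq : n0 ≤ q' := by
    by_contra hlt
    push Not at hlt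
    refine hq3 (by omega) (t - n0 + (n0 - 1 - q')) (s - n0 + (n0 - 1 - q')) (by omega) (by omega)
      (f1 _ _ hT2 hS2 _ (by omega))
  obtain ⟨rp, rq, rm⟩ := solve hD j p' q' (t - T - 1) hnp hnq hsl
  have ht : t = T + 1 + D.m j := by omega
  subst rp rq
  have hm1 : D.m j < n1 := by
    rcases j with _ | j
    · have := hD.m0
      omega
    · have := hD.mp j
      omega
  have hpre : ∀ t', t ≤ t' → u t' = none → ∀ i < n1, u (t + 1 + i) = u (t' + 1 + i) :=
    fun t' h1 h2 i h3 => ((stt.next t' h1 h2 i h3).2).symm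
  have hsuf : ∀ s', t < s' → u s' = none → ∀ i i' c, c < n1 → i + c + 1 = s → i' + c + 1 = s' →
      u i = u i' := by
    intro s' h1 h2 i i' c hc h3 h4
    obtain ⟨a1, a2⟩ := dec0_cls stt hts hus
    obtain ⟨b1, b2⟩ := dec0_cls stt h1 h2
    have := g1 _ _ a2 b2 (n1 - 1 - c) (by omega)
    rwa [show s - n1 + (n1 - 1 - c) = i by omega, show s' - n1 + (n1 - 1 - c) = i' by omega] at this
  have hsuf2 : ∀ s', t < s' → u s' = none → ∀ i i' c, c < D.q j → i + c + 1 = t → i' + c + 1 = s' →
      u i = u i' := by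
    intro s' h1 h2 i i' c hc h3 h4
    rw [hq2 i (s - 1 - c) c hc h3 (by omega)]
    exact hsuf s' h1 h2 _ _ c (by omega) (by omega) h4
  have hsuf3 : ∀ s', t < s' → u s' = none → ∀ i i', i + D.q j + 1 = t → i' + D.q j + 1 = s' →
      u i ≠ u i' := by
    intro s' h1 h2 i i' h3 h4
    rw [← hsuf s' h1 h2 (s - 1 - D.q j) i' (D.q j) (by omega) (by omega) h4]
    exact hq3 (by omega) _ _ h3 (by omega)
  refine ⟨t, ⟨ht, hut, hbt, ?_, ?_, hsuf2, hsuf3⟩, ?_⟩
  · intro t' h1 h2 i h3
    rw [hp i h3, hpre t' h1 h2 i (by omega)]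
  · intro t' h1 h2
    rw [← hpre t' h1 h2 _ (by omega)]
    exact hp' (by omega)
  · refine ⟨dec0_up hD hr hlev stt _ (by omega) (by omega) (by omega), ?_, ?_, hsuf2, hsuf3⟩
    · intro i h1 h2
      set N := min (D.p (j + 1)) (D.q (j + 1)) with hN
      rcases h1.eq_or_lt with h3 | h3
      · refine ⟨T - i, by omega, ?_⟩
        rw [show i + (T - i) = T by omega]
        exact h.st.here
      · have h4 : i + N ≤ T := by
          by_contra h5
          exact hbt _ (by omega) h3 h2
        obtain ⟨r, hr1, hr2⟩ := h.pv (i + (N - n0)) (by omega)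
          (by rw [show i + (N - n0) + n0 = i + N by omega]; exact h2)
        exact ⟨N - n0 + r, by omega, by rw [show i + (N - n0 + r) = i + (N - n0) + r by omega]; exact hr2⟩
    · show D.q j ≤ t
      omega

theorem dec0 {k : ℕ} (hk : 0 < k) (D : Data) (hD : D.Good) (u : ℕ → Option (Fin k))
    (hK : ∀ n (v : Fin n → Fin k), (fun i => some (v i)) ∈ factors u n)
    (hc : complexity u = ffun k D) : ∃ y x : ℕ → Fin k, IsSol D y x ∧ Rich D y x := by
  have hg : ∀ n, gw u n = gfun D n := fun n => by
    have := card_factors u hK n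
    rw [hc] at this
    unfold ffun at this
    omega
  have hg1 : ∀ n, gw u (n + 1) = gw u n + slope D n := by
    intro n
    rw [hg, hg, gfun, gfun, Finset.sum_range_succ]
  have hi : Inf u := inf_of_gw fun n => by rw [hg]; exact le_gfun D n
  have hr : Run u := run_of_full u hk hK
  have hlev : ∀ n, slope D n = 1 → F1 u n ∧ F2 u n := fun n hn => by
    obtain ⟨i, _, hi'⟩ := exists_cls hi hr n 0
    exact cnt_one ⟨i, hi'⟩ (by rw [hg1, hn])
  have e1 := hD.growp 0
  have e2 := hD.growq 0
  have e3 := hD.p0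
  have e4 := hD.q0
  have e5 : D.Q 0 = 0 := rfl
  have h0 : u 0 = none := init_none hi hr hD.p0
    (fun n hn => hlev n (slope_one_of_le hD hn))
    (hlev _ (slope_one hD (j := 0) (by omega) (by omega) (by omega)))
    (by rw [hg1 (D.p 0 + 1), slope_three hD])
  -- the initial state
  have hst0 : Stt D u 0 0 := by
    refine ⟨?_, ?_, Nat.zero_le _, ?_, ?_⟩
    · have hup : ∀ n, n ≤ D.p 0 → St u n 0 := by
        intro n hn
        induction n with
        | zero => exact ⟨h0, fun t _ _ i hi => absurd hi (Nat.not_lt_zero _)⟩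
        | succ n ih => exact st_succ hr (ih (by omega)) (hlev _ (slope_one_of_le hD hn)).2
      exact hup _ (min_le_left _ _)
    · intro i h1 h2
      omega
    · intro s _ _ i i' c hc
      rw [e5] at hc
      omega
    · intro s _ _ i i' h1
      omega
  -- the sequence of states
  have hseq : ∃ T : ℕ → ℕ, T 0 = 0 ∧ ∀ j, Stt D u j (T j) ∧ Evt D u j (T j) (T (j + 1)) := by
    refine ⟨fun j => Nat.rec 0 (fun j T => T + 1 + D.m j) j, rfl, fun j => ?_⟩
    have key : ∀ j, Stt D u j (Nat.rec 0 (fun j T => T + 1 + D.m j) j) := by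
      intro j
      induction j with
      | zero => exact hst0
      | succ j ih =>
        obtain ⟨t, h1, h2⟩ := dec0_step hD hi hr hg1 hlev ih
        have h3 := h1.ht
        rw [h3] at h2
        exact h2
    refine ⟨key j, ?_⟩
    obtain ⟨t, h1, h2⟩ := dec0_step hD hi hr hg1 hlev (key j)
    have h3 := h1.ht
    rw [h3] at h1
    exact h1
  obtain ⟨T, hT0, hT⟩ := hseq
  have hTs : ∀ j, T (j + 1) = T j + 1 + D.m j := fun j => (hT j).2.ht
  have hTm : StrictMono T := strictMono_nat_of_lt_succ fun j => by rw [hTs]; omega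
  have hTn : ∀ j, u (T j) = none := fun j => (hT j).1.st.here
  have hpj : ∀ j, j < D.p j ∧ j < D.q j := by
    intro j
    induction j with
    | zero => exact ⟨by omega, by omega⟩
    | succ j ih =>
      have := hD.growp j
      have := hD.growq j
      have := hD.reach j
      exact ⟨by omega, by omega⟩
  have hpmono : StrictMono D.p := strictMono_nat_of_lt_succ fun j => by
    have := hD.growp j
    omega
  have hqmono : StrictMono D.q := strictMono_nat_of_lt_succ fun j => by
    have := hD.growq j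
    have := hD.reach j
    omega
  -- right context
  have hy0 : ∀ i, ∃ a, u (T i + 1 + i) = some a := by
    intro i
    have h1 := ((hT i).1.st.next (T i) le_rfl (hTn i) i (by have := hpj i; omega)).1
    exact Option.ne_none_iff_exists'.1 h1
  choose y hy using hy0
  have hY : ∀ j i, i < D.p j → u (T j + 1 + i) = some (y i) := by
    intro j i hij
    rw [← hy i]
    rcases le_or_gt i j with h1 | h1
    · exact ((hT i).1.st.next (T j) (hTm.monotone h1) (hTn j) i (by have := hpj i; omega)).2
    · exact (hT j).2.pre (T i) (hTm.monotone h1) (hTn i) i hij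
  have hY' : ∀ j, u (T j + 1 + D.p j) ≠ some (y (D.p j)) := by
    intro j h1
    refine (hT j).2.prene (T (j + 1)) le_rfl (hTn _) ?_
    rw [h1, hY (j + 1) (D.p j) (hpmono (Nat.lt_succ_self j))]
  -- left context
  have hqm := hD.qm
  have hx0 : ∀ c, ∃ a, u (T c + (D.m c - c)) = some a := by
    intro c
    have h1 := (hT c).2.bt (T c + (D.m c - c)) (by have := hqm c; have := hpj c; omega)
      (by rw [hTs]; omega)
    exact Option.ne_none_iff_exists'.1 h1
  choose x hx using hx0
  have hX : ∀ j c i, c < D.q j → i + c + 1 = T (j + 1) → u i = some (x c) := by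
    intro j c i hc h1
    rw [← hx c]
    have h2 := (hT j).2.suf (T (max j c + 2)) (hTm (by omega)) (hTn _) i
      (T (max j c + 2) - 1 - c) c hc h1 (by
        have : T (j + 1) ≤ T (max j c + 2) := hTm.monotone (by omega)
        omega)
    have h4 : T (c + 1) = T c + 1 + D.m c := hTs c
    have h3 := (hT c).2.suf (T (max j c + 2)) (hTm (by omega)) (hTn _) (T c + (D.m c - c))
      (T (max j c + 2) - 1 - c) c (hpj c).2 (by have := hqm c; have := hpj c; omega) (by
        have : T (c + 1) ≤ T (max j c + 2) := hTm.monotone (by omega)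
        have := hqm c
        have := hpj c
        omega)
    rw [h2, h3]
  have hX' : ∀ j i, i + D.q j + 1 = T (j + 1) → u i ≠ some (x (D.q j)) := by
    intro j i h1 h2
    have h3 : T (j + 1 + 1) = T (j + 1) + 1 + D.m (j + 1) := hTs (j + 1)
    have h4 : D.q j < D.q (j + 1) := hqmono (Nat.lt_succ_self j)
    have h5 := hqm (j + 1)
    refine (hT j).2.sufne (T (j + 1 + 1)) (hTm (by omega)) (hTn _) i (T (j + 1 + 1) - 1 - D.q j) h1
      (by omega) ?_
    rw [h2]
    exact (hX (j + 1) (D.q j) _ h4 (by omega)).symm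
  refine ⟨y, x, ⟨?_, ?_, ?_⟩, ?_⟩
  · intro j i i' h1 h2 h3
    have h4 := hY j i h1
    have h5 := hX j i' (T j + 1 + i) h2 (by rw [hTs]; omega)
    rw [h4] at h5
    exact Option.some_injective _ h5
  · intro j i' h1 h2
    have h3 := hD.mpq j
    refine hY' j ?_
    rw [h2]
    exact hX j i' _ (by omega) (by rw [hTs]; omega)
  · intro j i h1 h2
    have h3 := hD.mpq j
    refine hX' j (T j + 1 + i) (by rw [hTs]; omega) ?_
    rw [h2]
    exact hY j i (by omega)
  · intro n v
    obtain ⟨pos, hpos⟩ := hK n v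
    have hpos' : ∀ r (hr : r < n), u (pos + r) = some (v ⟨r, hr⟩) := fun r hr =>
      congrFun hpos ⟨r, hr⟩
    rcases Nat.eq_zero_or_pos n with hn | hn
    · subst hn
      exact ⟨0, 0, by omega, fun t => t.elim0⟩
    · have hex : ∃ j, pos < T (j + 1) := ⟨pos, by
        have := hTm.id_le (pos + 1)
        simp only [id] at this
        omega⟩
      classical
      set j := Nat.find hex with hj
      have hj1 : pos < T (j + 1) := Nat.find_spec hex
      have hj2 : T j ≤ pos := by
        rcases Nat.eq_zero_or_pos j with h1 | h1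
        · rw [h1, hT0]; omega
        · have := Nat.find_min hex (show j - 1 < Nat.find hex by omega)
          rw [show j - 1 + 1 = j by omega] at this
          omega
      have hj3 : T j ≠ pos := by
        intro h1
        have h2 := hpos' 0 hn
        rw [add_zero, ← h1, hTn] at h2
        exact absurd h2 (by simp)
      have hj4 : pos + n ≤ T (j + 1) := by
        by_contra h1
        have h2 := hpos' (T (j + 1) - pos) (by omega)
        rw [show pos + (T (j + 1) - pos) = T (j + 1) by omega, hTn] at h2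
        exact absurd h2 (by simp)
      have hj5 := hTs j
      refine ⟨j, pos - T j - 1, by omega, fun t => ?_⟩
      have h1 := hpos' t t.2
      have h2 : u (pos + t) = some (gap D y x j (pos - T j - 1 + t)) := by
        unfold gap
        have h3 := hD.mpq j
        split_ifs with h4
        · rw [← hY j _ h4]
          congr 1
          omega
        · exact hX j _ _ (by omega) (by omega)
      rw [h2] at h1
      exact Option.some_injective _ h1

end Pool.Agent.Helper79.CF
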