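import Pool.Agent.Helper79.CF.Dec0
import Pool.Agent.CFX.RIG
import Pool.Agent.CFX.EMB
import Pool.Agent.CFX.ENCW
import Pool.Agent.CFX.ENCR
import Pool.Agent.CFX.ENCE
import Pool.Agent.CFX.PROGA
import Pool.Agent.CFX.PROGB
import Pool.Agent.CFX.LOC
import Pool.Agent.CFX.NECI
import Pool.Agent.CFX.NECS
import Pool.Agent.CFX.NECP
import Pool.Agent.CFX.NECR
import Pool.Agent.CFX.BUILD
import Pool.Agent.CFX.HL
import Pool.Agent.CFX.EXII
import Pool.Agent.CFX.EXIR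
import Pool.Agent.CFX.BOR
import Pool.Agent.CFX.ANA

/-!
The set of the factor complexity functions of the infinite words over an alphabet with at least
four letters is complete analytic, hence not Borel.
-/

namespace Pool.Agent.Helper79.CF

open Filter Topology MeasureTheory

theorem dec {A : Type*} [Finite A] {k : ℕ} (hk : 2 ≤ k) (D : Data) (hD : D.Good) (u : ℕ → A)
    (hc : complexity u = ffun k D) : ∃ y x : ℕ → Fin k, IsSol D y x ∧ Rich D y x := by
  obtain ⟨u', h1, h2⟩ := dec_aux hk D (gfun_le D) (gfun_one D) u hc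
  exact dec0 (by omega) D hD u' h2 h1

open scoped Classical in
theorem enc {k : ℕ} (D : Data) (hD : D.Good) (y x : ℕ → Fin k) (hs : IsSol D y x)
    (hr : Rich D y x) : ∃ u : ℕ → Option (Fin k), complexity u = ffun k D := by
  obtain ⟨u, T, hw⟩ := exists_wd D y x
  refine ⟨u, funext fun n => ?_⟩
  rw [card_factors u (enc_full hw hr) n, ffun]
  congr 1
  induction n with
  | zero => rw [gw_zero]; simp [gfun]
  | succ n ih =>
    rw [gfun, Finset.sum_range_succ, ← gfun, ← ih, slope]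
    exact cnt_gen u n _ _ (enc_cls hD hs hw n) (encE hD hs hw n).1 (encE hD hs hw n).2
      (encR hD hs hw n).1 (encR hD hs hw n).2

section Nec
variable {S : Steps} {st : ℕ → ℕ} {W : ℕ → List (Fin 3)} {G : ℕ → ℕ → Prop} {y x : ℕ → Fin 3}

theorem nec (hS : S.Ok) (hG : Spec S st W G) (h1 : Sym S y x) (h2 : Ineq S y x)
    (h3 : Rich S.data y x) : ∃ I : Set ℕ, I.Infinite ∧ ∀ i ∈ I, ∀ n ∈ I, i < n → G i n := by
  have hi := nec_init hS hG h1 h2
  refine ⟨{n | y (S.p (st n)) = x 0}, ?_, fun i hi' n hn hin =>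
    nec_comp hS hG h1 h2 hi hin hi' hn⟩
  intro hfin
  obtain ⟨n0, hn0⟩ := hfin.bddAbove
  have hA : ∀ n ≥ n0 + 1, y (S.p (st n)) = y 0 := by
    intro n hn
    have h4 : y (S.p (st n)) ≠ x 0 := fun h => by
      have := hn0 (show n ∈ {n | y (S.p (st n)) = x 0} from h)
      omega
    exact fin3 _ _ _ _ hi.n0 hi.n1 hi.n2 (stage_r2 hS hG h1 h2 hi n) h4
  obtain ⟨N, hN⟩ := run_bound hS h1 h2 _ (nec_safe hS hG h1 h2 hi hA)
  obtain ⟨j, i, hm, ht⟩ := h3 N fun _ => y 0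
  obtain ⟨t, htN, hne⟩ := hN j i hm
  exact hne (ht ⟨t, htN⟩)

theorem exi (hS : S.Ok) (hG : Spec S st W G) (hW : ∀ l, ∃ N, ∀ n ≥ N, l <:+: W n)
    {I : Set ℕ} (hI : I.Infinite) (hc : ∀ i ∈ I, ∀ n ∈ I, i < n → G i n) :
    ∃ y x : ℕ → Fin 3, Sym S y x ∧ Ineq S y x ∧ Rich S.data y x := by
  obtain ⟨h, hh⟩ := exists_hl st W I hG.st0 hG.st1
  obtain ⟨y, x, h1, h2, h3, h4, h5, h6, h7⟩ := build hS h 0 1 2
  exact ⟨y, x, h1, exi_ineq hS hG hc hh h1 h2 h3 h4 h5 h6 h7, exi_rich hS hG hW hI hh h1 h5⟩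

end Nec

theorem final (A : Type*) [Fintype A] (hA : 4 ≤ Fintype.card A) :
    AnalyticSet (Set.range (complexity : (ℕ → A) → ℕ → ℕ)) ∧
      (∀ S : Set (ℕ → ℕ), AnalyticSet S → ∃ Φ : (ℕ → ℕ) → ℕ → ℕ, Continuous Φ ∧
        Φ ⁻¹' Set.range (complexity : (ℕ → A) → ℕ → ℕ) = S) ∧
      ¬ @MeasurableSet (ℕ → ℕ) (borel (ℕ → ℕ))
        (Set.range (complexity : (ℕ → A) → ℕ → ℕ)) := by
  refine ⟨analytic_range A, ?_⟩
  obtain ⟨W, hW⟩ := exists_words
  obtain ⟨st, S, hS, hl⟩ := exists_prog W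
  refine complete _ (fun G => ffun 3 (S G).data) ?_ ?_
  · intro G
    constructor
    · rintro ⟨u, hu⟩
      obtain ⟨y, x, h1, h2⟩ := dec (by norm_num) _ (good_data (hS G).1) u hu
      obtain ⟨h3, h4⟩ := (isSol_iff (hS G).1 y x).1 h1
      exact nec (hS G).1 (hS G).2 h3 h4 h2
    · rintro ⟨I, hI, hc⟩
      obtain ⟨y, x, h1, h2, h3⟩ := exi (hS G).1 (hS G).2 hW hI hc
      obtain ⟨u, hu⟩ := enc _ (good_data (hS G).1) y x
        ((isSol_iff (hS G).1 y x).2 ⟨h1, h2⟩) h3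
      have hcard : Fintype.card (Option (Fin 3)) ≤ Fintype.card A := by simpa using hA
      obtain ⟨e⟩ := Function.Embedding.nonempty_of_card_le hcard
      exact ⟨fun i => e (u i), (complexity_comp e u e.injective.injOn).trans hu⟩
  · intro G G' n hn
    apply ffun_local 3 (good_data (hS G).1) (good_data (hS G').1)
    intro j hj
    obtain ⟨h1, h2, h3, h4⟩ := hl G G' (j / 3) fun i m him hm => hn i m him (by omega)
    simp only [Steps.data, Steps.L, h1, h2, h3, h4, and_self]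

end Pool.Agent.Helper79.CF
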